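import Pool.Agent.H37.KR.P5e

/-!
# Linear algebra for the second half of part P5
-/

set_option autoImplicit false

namespace Pool.Agent.H83.KR

open Finset MvPolynomial Pool.Agent.W555.KS Pool.Agent.Y131.KS Pool.Agent.H37.KR

variable {N : ℕ}

/-- the space of symmetric cycles -/
def sySub (K : Finset (Finset (Fin N))) (D : ℕ) :
    Submodule (ZMod 2) (Finset (Fin N) → Finset (Fin N) → ZMod 2) where
  carrier := {Z | SyC K D Z}
  add_mem' := by
    rintro a b ⟨h1, h2, h3⟩ ⟨h4, h5, h6⟩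
    refine ⟨fun σ τ => ?_, fun σ τ h => ?_, fun ρ τ hd hc => ?_⟩
    · rw [Pi.add_apply, Pi.add_apply, Pi.add_apply, Pi.add_apply, h1 σ τ, h4 σ τ]
    · by_cases ha : a σ τ = 0
      · by_cases hb : b σ τ = 0
        · exact absurd (by rw [Pi.add_apply, Pi.add_apply, ha, hb, add_zero]) h
        · exact h5 σ τ hb
      · exact h2 σ τ ha
    · have e : ∀ v ∈ (ρ ∪ τ)ᶜ, ((a + b) (insert v ρ) τ + (a + b) ρ (insert v τ)) =
          (a (insert v ρ) τ + a ρ (insert v τ)) + (b (insert v ρ) τ + b ρ (insert v τ)) := by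
        intro v _
        simp only [Pi.add_apply]
        ring
      rw [sum_congr rfl e, sum_add_distrib, h3 ρ τ hd hc, h6 ρ τ hd hc, add_zero]
  zero_mem' := by
    refine ⟨fun σ τ => rfl, fun σ τ h => absurd rfl h, fun ρ τ _ _ => ?_⟩
    exact sum_eq_zero fun v _ => by simp only [Pi.zero_apply, add_zero]
  smul_mem' := by
    rintro c a ⟨h1, h2, h3⟩
    rcases (show c = 0 ∨ c = 1 by revert c; decide) with rfl | rfl
    · rw [zero_smul]
      refine ⟨fun σ τ => rfl, fun σ τ h => absurd rfl h, fun ρ τ _ _ => ?_⟩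
      exact sum_eq_zero fun v _ => by simp only [Pi.zero_apply, add_zero]
    · rw [one_smul]
      exact ⟨h1, h2, h3⟩

/-- the evaluation -/
def evL (K : Finset (Finset (Fin N))) (D : ℕ) : sySub K D →ₗ[ZMod 2] ZMod 2 where
  toFun Z := ∑ U ∈ powersetCard D univ, Z.1 (evenPart U) (oddPart U)
  map_add' a b := by
    rw [← sum_add_distrib]
    exact sum_congr rfl fun _ _ => rfl
  map_smul' c a := by
    rw [RingHom.id_apply, smul_eq_mul, mul_sum]
    exact sum_congr rfl fun _ _ => rfl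

/-- the value of a cochain -/
def prL (K : Finset (Finset (Fin N))) (D : ℕ) (c : Finset (Fin N) → Finset (Fin N) → ZMod 2) :
    sySub K D →ₗ[ZMod 2] ZMod 2 where
  toFun Z := pr2 D c Z.1
  map_add' a b := by
    unfold pr2
    rw [← sum_add_distrib]
    refine sum_congr rfl fun σ _ => ?_
    rw [← sum_add_distrib]
    refine sum_congr rfl fun τ _ => ?_
    split_ifs
    · rw [← mul_add]; rfl
    · rw [add_zero]
  map_smul' x a := by
    unfold pr2
    rw [RingHom.id_apply, smul_eq_mul, mul_sum]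
    refine sum_congr rfl fun σ _ => ?_
    rw [mul_sum]
    refine sum_congr rfl fun τ _ => ?_
    split_ifs
    · rw [mul_left_comm]; rfl
    · rw [mul_zero]

/-- PART P5b -/
theorem stP5b : StP5b := by
  intro N K d α h
  let L : (Σ s : Fin (d + 2), Fin (betti K (d + 1 - s)) × Fin (betti K s)) →
      (sySub K (d + 1) →ₗ[ZMod 2] ZMod 2) := fun x =>
    if 2 * (x.1 : ℕ) ≤ d + 1 then
      prL K (d + 1) (fun σ τ => α (d + 1 - x.1) x.2.1 σ * α x.1 x.2.2 τ) else 0
  have hker : (⨅ x, LinearMap.ker (L x)) ≤ LinearMap.ker (evL K (d + 1)) := by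
    intro Z hZ
    rw [LinearMap.mem_ker]
    refine h Z.1 Z.2 fun p s hps hsp i j => ?_
    have hp : p = d + 1 - s := by omega
    subst hp
    have h1 := (Submodule.mem_iInf _).1 hZ ⟨⟨s, by omega⟩, (i, j)⟩
    rw [LinearMap.mem_ker] at h1
    have h2 : L ⟨⟨s, by omega⟩, (i, j)⟩ =
        prL K (d + 1) (fun σ τ => α (d + 1 - s) i σ * α s j τ) := if_pos (by
          show 2 * s ≤ d + 1
          omega)
    rw [h2] at h1
    exact h1
  have hspan := mem_span_of_iInf_ker_le_ker hker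
  rw [Submodule.mem_span_range_iff_exists_fun] at hspan
  obtain ⟨c, hc⟩ := hspan
  refine ⟨fun p s i j => if hh : p = d + 1 - s ∧ s < d + 2 then
    c ⟨⟨s, hh.2⟩, (Fin.cast (congrArg (betti K) hh.1) i, j)⟩ else 0, ?_⟩
  intro Z hZ
  have h1 := LinearMap.congr_fun hc ⟨Z, hZ⟩
  have h2 : evL K (d + 1) ⟨Z, hZ⟩ =
    ∑ U ∈ powersetCard (d + 1) univ, Z (evenPart U) (oddPart U) := rfl
  rw [← h2, ← h1, LinearMap.sum_apply, Fintype.sum_sigma, ← Fin.sum_univ_eq_sum_range
    (fun s => if 2 * s ≤ d + 1 then ∑ i, ∑ j, (if hh : d + 1 - s = d + 1 - s ∧ s < d + 2 then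
      c ⟨⟨s, hh.2⟩, (Fin.cast (congrArg (betti K) hh.1) i, j)⟩ else 0) *
        pr2 (d + 1) (fun σ τ => α (d + 1 - s) i σ * α s j τ) Z else 0)]
  refine sum_congr rfl fun s _ => ?_
  rw [Fintype.sum_prod_type]
  by_cases hs : 2 * (s : ℕ) ≤ d + 1
  · rw [if_pos hs]
    refine sum_congr rfl fun i _ => sum_congr rfl fun j _ => ?_
    have h3 : L ⟨s, (i, j)⟩ =
        prL K (d + 1) (fun σ τ => α (d + 1 - s) i σ * α s j τ) := if_pos hs
    rw [LinearMap.smul_apply, h3, smul_eq_mul, dif_pos ⟨rfl, s.2⟩]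
    rfl
  · rw [if_neg hs]
    refine sum_eq_zero fun i _ => sum_eq_zero fun j _ => ?_
    have h3 : L ⟨s, (i, j)⟩ = 0 := if_neg hs
    rw [LinearMap.smul_apply, h3, LinearMap.zero_apply, smul_zero]

end Pool.Agent.H83.KR
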