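import Pool.Agent.H37.KR.Man

/-!
# Dual bases of the homology and the cohomology of a complex (part P1)
-/

set_option autoImplicit false

namespace Pool.Agent.H83.KR

open Finset Pool.Agent.W555.KS Pool.Agent.Y131.KS Pool.Agent.H37.KR

variable {N : ℕ}

theorem bdr_single (ρ σ : Finset (Fin N)) :
    bdr (Pi.single ρ (1 : ZMod 2)) σ = ∑ v ∈ ρ, (Pi.single (ρ.erase v) (1 : ZMod 2) :
      Finset (Fin N) → ZMod 2) σ := by
  unfold bdr
  by_cases h : ∃ v ∈ ρ, σ = ρ.erase v
  · obtain ⟨v, hv, rfl⟩ := h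
    rw [sum_eq_single v, sum_eq_single v]
    · rw [insert_erase hv, Pi.single_eq_same, Pi.single_eq_same]
    · intro w hw hwv
      rw [Pi.single_eq_of_ne]
      intro he
      have h1 : w ∈ ρ.erase v := mem_erase.2 ⟨hwv, hw⟩
      rw [he] at h1
      exact (notMem_erase w ρ) h1
    · intro h1
      exact absurd hv h1
    · intro w hw hwv
      rw [Pi.single_eq_of_ne]
      intro he
      have h1 : v ∈ insert w (ρ.erase v) := by rw [he]; exact hv
      rw [mem_insert, mem_erase] at h1
      rcases h1 with h1 | h1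
      · exact hwv h1.symm
      · exact h1.1 rfl
    · intro h1
      rw [mem_compl, not_not] at h1
      exact absurd h1 (notMem_erase _ _)
  · rw [sum_eq_zero, sum_eq_zero]
    · intro v hv
      rw [Pi.single_eq_of_ne]
      intro he
      exact h ⟨v, hv, he⟩
    · intro v hv
      rw [Pi.single_eq_of_ne]
      intro he
      rw [mem_compl] at hv
      refine h ⟨v, ?_, ?_⟩
      · rw [← he]; exact mem_insert_self _ _
      · rw [← he, erase_insert hv]

theorem sp_bdr {K : Finset (Finset (Fin N))} (hK : IsCx K) {s : ℕ} {b : Finset (Fin N) → ZMod 2}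
    (hb : Sp K (s + 1) b) : Sp K s (bdr b) := by
  intro σ hσ
  unfold bdr at hσ
  obtain ⟨v, hv, hne⟩ := exists_ne_zero_of_sum_ne_zero hσ
  obtain ⟨h1, h2⟩ := hb _ hne
  rw [mem_compl] at hv
  refine ⟨hK.2 _ h1 _ (subset_insert _ _), ?_⟩
  rw [card_insert_of_notMem hv] at h2
  omega

theorem bdS_le {K : Finset (Finset (Fin N))} (hK : IsCx K) (s : ℕ) : bdS K s ≤ cycS K s := by
  rintro c ⟨b, h1, h2⟩
  have e : c = bdr b := funext h2
  subst e
  exact ⟨sp_bdr hK h1, fun ρ => bdr_bdr b ρ⟩

/-- PART P1 -/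
theorem stP1 : StP1 := by
  intro N K s hK
  have hle := bdS_le hK s
  set H := cycS K s with hH
  set B' : Submodule (ZMod 2) H := (bdS K s).comap H.subtype with hB'
  have hfin : Module.finrank (ZMod 2) (H ⧸ B') = betti K s := by
    have h1 := Submodule.finrank_quotient_add_finrank B'
    have h2 : Module.finrank (ZMod 2) B' = Module.finrank (ZMod 2) (bdS K s) :=
      LinearEquiv.finrank_eq (Submodule.comapSubtypeEquivOfLe hle)
    have h3 : Module.finrank (ZMod 2) H = Module.finrank (ZMod 2) (cycS K s) := rfl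
    unfold betti
    omega
  let b : Module.Basis (Fin (betti K s)) (ZMod 2) (H ⧸ B') :=
    Module.finBasisOfFinrankEq (ZMod 2) (H ⧸ B') hfin
  have hsurj : ∀ i, ∃ c : H, B'.mkQ c = b i := fun i => B'.mkQ_surjective (b i)
  choose c hc using hsurj
  have hext : ∀ i, ∃ f : (Finset (Fin N) → ZMod 2) →ₗ[ZMod 2] ZMod 2,
      f ∘ₗ H.subtype = (b.coord i) ∘ₗ B'.mkQ := fun i => LinearMap.exists_extend _
  choose f hf using hext
  have hf' : ∀ i (x : H), f i (x : Finset (Fin N) → ZMod 2) = b.coord i (B'.mkQ x) := by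
    intro i x
    have := LinearMap.congr_fun (hf i) x
    exact this
  have hpr : ∀ i (x : Finset (Fin N) → ZMod 2), Sp K s x →
      prc (fun σ => if σ.card = s then f i (Pi.single σ 1) else 0) x = f i x := by
    intro i x hx
    unfold prc
    have hx' : x = ∑ σ, x σ • (Pi.single σ (1 : ZMod 2) : Finset (Fin N) → ZMod 2) := by
      funext τ
      rw [Finset.sum_apply, sum_eq_single τ]
      · rw [Pi.smul_apply, Pi.single_eq_same, smul_eq_mul, mul_one]
      · intro σ _ hσ
        rw [Pi.smul_apply, Pi.single_eq_of_ne (Ne.symm hσ), smul_zero]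
      · intro h
        exact absurd (mem_univ _) h
    conv_rhs => rw [hx']
    rw [map_sum]
    refine sum_congr rfl fun σ _ => ?_
    rw [map_smul, smul_eq_mul]
    by_cases h0 : x σ = 0
    · rw [h0, mul_zero, zero_mul]
    · beta_reduce
      rw [if_pos (hx σ h0).2, mul_comm]
  refine ⟨fun i => (c i : Finset (Fin N) → ZMod 2),
    fun i σ => if σ.card = s then f i (Pi.single σ 1) else 0, fun i => (c i).2, ?_, ?_, ?_⟩
  · intro i
    refine ⟨fun σ hσ => if_neg hσ, ?_⟩
    intro ρ hρ hcard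
    have h1 : ∀ v ∈ ρ, (if (ρ.erase v).card = s then f i (Pi.single (ρ.erase v) 1) else 0) =
        f i (Pi.single (ρ.erase v) 1) := by
      intro v hv
      rw [if_pos]
      rw [card_erase_of_mem hv, hcard]
      rfl
    rw [sum_congr rfl h1, ← map_sum]
    have hs : Sp K (s + 1) (Pi.single ρ (1 : ZMod 2)) := by
      intro σ hσ
      by_cases he : σ = ρ
      · subst he; exact ⟨hρ, hcard⟩
      · rw [Pi.single_eq_of_ne he] at hσ
        exact absurd rfl hσ
    have e : (∑ v ∈ ρ, (Pi.single (ρ.erase v) (1 : ZMod 2) : Finset (Fin N) → ZMod 2)) =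
        bdr (Pi.single ρ (1 : ZMod 2)) := by
      funext σ
      rw [bdr_single, Finset.sum_apply]
    rw [e]
    have hmem : bdr (Pi.single ρ (1 : ZMod 2)) ∈ bdS K s := ⟨_, hs, fun _ => rfl⟩
    have h2 := hf' i ⟨_, hle hmem⟩
    have h3 : B'.mkQ ⟨_, hle hmem⟩ = 0 := by
      rw [Submodule.mkQ_apply, Submodule.Quotient.mk_eq_zero]
      exact hmem
    rw [h3, map_zero] at h2
    exact h2
  · intro i j
    rw [hpr i _ (c j).2.1, hf', hc, Module.Basis.coord_apply, Module.Basis.repr_self]
    rw [Finsupp.single_apply]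
    simp only [eq_comm]
  · intro x hx hbx h0
    have hxm : x ∈ H := ⟨hx, hbx⟩
    have h1 : ∀ i, b.coord i (B'.mkQ ⟨x, hxm⟩) = 0 := by
      intro i
      rw [← hf' i ⟨x, hxm⟩, ← hpr i x hx]
      exact h0 i
    have h2 : B'.mkQ ⟨x, hxm⟩ = 0 := by
      refine b.ext_elem fun i => ?_
      rw [map_zero, Finsupp.zero_apply]
      exact h1 i
    rw [Submodule.mkQ_apply, Submodule.Quotient.mk_eq_zero] at h2
    obtain ⟨b', h3, h4⟩ := h2
    exact ⟨b', h3, h4⟩

end Pool.Agent.H83.KR
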