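import Pool.Agent.H37.KR.Man

/-!
# The deletion of a nonempty face of a closed homology manifold (part P2)

For a closed connected mod 2 homology manifold `K` of dimension `d - 1` and a nonempty face `σ` the
inclusion of the deletion of `σ` induces an injection in homology, in all dimensions, a surjection
below the top dimension, and the deletion has no top dimensional cycles.
-/

set_option autoImplicit false

namespace Pool.Agent.H83.KR

open Finset Pool.Agent.W555.KS Pool.Agent.Y131.KS Pool.Agent.H37.KR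

variable {N : ℕ}

/-- the three properties of the subcomplex `L` of `K` -/
def Good (K L : Finset (Finset (Fin N))) (d : ℕ) : Prop :=
  (∀ s c, Sp L s c → (∃ b, Sp K (s + 1) b ∧ ∀ ρ, c ρ = bdr b ρ) →
      ∃ b, Sp L (s + 1) b ∧ ∀ ρ, c ρ = bdr b ρ) ∧
    (∀ c, Sp L d c → (∀ ρ, bdr c ρ = 0) → ∀ ρ, c ρ = 0) ∧
    ∀ s, s < d → ∀ c, Sp K s c → (∀ ρ, bdr c ρ = 0) → ∃ c' e, Sp L s c' ∧
      (∀ ρ, bdr c' ρ = 0) ∧ Sp K (s + 1) e ∧ ∀ ρ, c ρ + c' ρ = bdr e ρ

theorem sp_zero (K : Finset (Finset (Fin N))) (s : ℕ) : Sp K s (fun _ => 0) :=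
  fun _ h => absurd rfl h

theorem sp_mono {K L : Finset (Finset (Fin N))} (h : L ⊆ K) {s : ℕ}
    {c : Finset (Fin N) → ZMod 2} (hc : Sp L s c) : Sp K s c :=
  fun σ hσ => ⟨h (hc σ hσ).1, (hc σ hσ).2⟩

theorem del_sub (K : Finset (Finset (Fin N))) (σ : Finset (Fin N)) : del K σ ⊆ K :=
  fun _ h => (mem_del.1 h).1

theorem sp_add {K : Finset (Finset (Fin N))} {s : ℕ} {a b : Finset (Fin N) → ZMod 2}
    (ha : Sp K s a) (hb : Sp K s b) : Sp K s (fun σ => a σ + b σ) := by
  intro σ hσ
  by_cases h1 : a σ = 0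
  · by_cases h2 : b σ = 0
    · exact absurd (by beta_reduce; rw [h1, h2, add_zero]) hσ
    · exact hb σ h2
  · exact ha σ h1

theorem del_notMem {K : Finset (Finset (Fin N))} {v : Fin N} {s : ℕ}
    {c : Finset (Fin N) → ZMod 2} (hc : Sp (del K {v}) s c) {σ : Finset (Fin N)} (hσ : v ∈ σ) :
    c σ = 0 := by
  by_contra hne
  have := (mem_del.1 (hc _ hne).1).2
  rw [disjoint_singleton_right] at this
  exact this hσ

/-- the cone over a chain of the link is a chain -/
theorem ce_sp {K : Finset (Finset (Fin N))} {w : Fin N} {j : ℕ} {e : Finset (Fin N) → ZMod 2}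
    (he : Sp (lk K {w}) j e) : Sp K (j + 1) (ce w e) := by
  intro τ hτ
  unfold ce at hτ
  split_ifs at hτ with h
  · obtain ⟨h1, h2⟩ := he _ hτ
    rw [mem_lk] at h1
    have e1 : τ.erase w ∪ {w} = τ := by
      rw [union_comm, ← insert_eq, insert_erase h]
    rw [e1] at h1
    refine ⟨h1.2, ?_⟩
    have := card_erase_add_one h
    omega
  · exact absurd rfl hτ

/-- as `fix`, with the homology -/
theorem fix2 {K : Finset (Finset (Fin N))} (hK : IsCx K) {w : Fin N} {j : ℕ}
    {b e : Finset (Fin N) → ZMod 2} (hb : Sp K (j + 1) b) (he : Sp (lk K {w}) (j + 1) e)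
    (h : ∀ ρ, part w b ρ = bdr e ρ) :
    ∃ b', Sp (del K {w}) (j + 1) b' ∧ (∀ ρ, bdr b' ρ = bdr b ρ) ∧
      ∃ f, Sp K (j + 2) f ∧ ∀ ρ, b ρ + b' ρ = bdr f ρ := by
  refine ⟨fun ρ => b ρ + bdr (ce w e) ρ, ?_, ?_, ce w e, ce_sp he, ?_⟩
  · intro ρ hρ
    simp only at hρ
    rw [bdr_ce he] at hρ
    split_ifs at hρ with hw
    · exfalso
      apply hρ
      rw [← h, part, if_neg (notMem_erase _ _), insert_erase hw]
      exact z2 _
    · have h1 : b ρ ≠ 0 ∨ e ρ ≠ 0 := by
        by_contra hcon
        push Not at hcon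
        exact hρ (by rw [hcon.1, hcon.2, add_zero])
      rcases h1 with h1 | h1
      · obtain ⟨h2, h3⟩ := hb ρ h1
        exact ⟨mem_del.2 ⟨h2, disjoint_singleton_right.2 hw⟩, h3⟩
      · obtain ⟨h2, h3⟩ := he ρ h1
        rw [mem_lk] at h2
        exact ⟨mem_del.2 ⟨hK.2 _ h2.2 _ subset_union_left, h2.1⟩, h3⟩
  · intro ρ
    rw [bdr_add, bdr_bdr, add_zero]
  · intro ρ
    rw [← add_assoc, z2, zero_add]

/-- injectivity at `s`, if the link is acyclic there -/
theorem inj_at {K : Finset (Finset (Fin N))} (hK : IsCx K) {w : Fin N} {s : ℕ}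
    (hl : AcyclicAt (lk K {w}) s) {c : Finset (Fin N) → ZMod 2} (hc : Sp (del K {w}) s c)
    (h : ∃ b, Sp K (s + 1) b ∧ ∀ ρ, c ρ = bdr b ρ) :
    ∃ b, Sp (del K {w}) (s + 1) b ∧ ∀ ρ, c ρ = bdr b ρ := by
  obtain ⟨b, hb, hbc⟩ := h
  obtain ⟨e, he, hbe⟩ := hl (part w b) (part_sp hb) (by
    intro ρ
    rw [bdr_part]
    split_ifs with h
    · rfl
    · rw [← hbc]
      exact del_notMem hc (mem_insert_self _ _))
  obtain ⟨b', hb', hbb⟩ := fix hK hb he hbe
  exact ⟨b', hb', fun ρ => by rw [hbc, hbb]⟩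

/-- surjectivity at `s`, if the link is acyclic at `s - 1` -/
theorem surj_at {K : Finset (Finset (Fin N))} (hK : IsCx K) {w : Fin N} {s : ℕ}
    (hl : ∀ j, j + 1 = s → AcyclicAt (lk K {w}) j) {c : Finset (Fin N) → ZMod 2} (hc : Sp K s c)
    (hcy : ∀ ρ, bdr c ρ = 0) :
    ∃ c' e, Sp (del K {w}) s c' ∧ (∀ ρ, bdr c' ρ = 0) ∧ Sp K (s + 1) e ∧
      ∀ ρ, c ρ + c' ρ = bdr e ρ := by
  rcases s with _ | j
  · refine ⟨c, fun _ => 0, ?_, hcy, sp_zero _ _, fun ρ => by rw [bdr_zero]; exact z2 _⟩
    intro σ hσ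
    obtain ⟨h1, h2⟩ := hc σ hσ
    rw [card_eq_zero] at h2
    subst h2
    exact ⟨mem_del.2 ⟨h1, disjoint_empty_left _⟩, card_empty⟩
  · obtain ⟨e, he, hce⟩ := hl j rfl (part w c) (part_sp hc) (by
      intro ρ
      rw [bdr_part]
      split_ifs with h
      · rfl
      · exact hcy _)
    obtain ⟨c', h1, h2, f, h3, h4⟩ := fix2 hK hc he hce
    exact ⟨c', f, h1, fun ρ => by rw [h2, hcy], h3, h4⟩

/-- the sum of all facets is a cycle -/
theorem hman_facets {K : Finset (Finset (Fin N))} {d : ℕ} (h : HMan K d) (ρ : Finset (Fin N)) :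
    bdr (fun σ => if σ ∈ K ∧ σ.card = d then 1 else 0) ρ = 0 := by
  classical
  rcases ρ.eq_empty_or_nonempty with rfl | ⟨v, hv⟩
  · unfold bdr
    refine sum_eq_zero fun v _ => ?_
    beta_reduce
    rw [if_neg]
    rintro ⟨-, h2⟩
    have h3 := h.two_le
    rw [card_insert_of_notMem (notMem_empty v), card_empty] at h2
    omega
  · by_cases hvK : ({v} : Finset (Fin N)) ∈ K
    · have h1 := facets_cycle (h.lks v hvK) (ρ.erase v)
      have h2 := bdr_part v (fun σ => if σ ∈ K ∧ σ.card = d then (1 : ZMod 2) else 0) (ρ.erase v)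
      rw [if_neg (notMem_erase _ _), insert_erase hv] at h2
      rw [← h2]
      refine Eq.trans ?_ h1
      congr 1
      funext τ
      unfold part
      have h3 := h.two_le
      by_cases hτ : v ∈ τ
      · rw [if_pos hτ, if_neg]
        rintro ⟨h4, -⟩
        have := (mem_lk.1 h4).1
        rw [disjoint_singleton_right] at this
        exact this hτ
      · rw [if_neg hτ]
        have e : (insert v τ ∈ K ∧ (insert v τ).card = d) ↔ (τ ∈ lk K {v} ∧ τ.card = d - 1) := by
          rw [card_insert_of_notMem hτ, mem_lk, disjoint_singleton_right, union_comm, ← insert_eq]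
          constructor
          · rintro ⟨h5, h6⟩
            exact ⟨⟨hτ, h5⟩, by omega⟩
          · rintro ⟨⟨-, h5⟩, h6⟩
            exact ⟨h5, by omega⟩
        by_cases h4 : τ ∈ lk K {v} ∧ τ.card = d - 1
        · beta_reduce
          rw [if_pos h4, if_pos (e.2 h4)]
        · beta_reduce
          rw [if_neg h4, if_neg (fun h5 => h4 (e.1 h5))]
    · unfold bdr
      refine sum_eq_zero fun u _ => ?_
      beta_reduce
      rw [if_neg]
      rintro ⟨h4, -⟩
      exact hvK (h.cx.2 _ h4 _ (singleton_subset_iff.2 (mem_insert_of_mem hv)))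

/-- the deletion of a vertex -/
theorem base_man {K : Finset (Finset (Fin N))} {d : ℕ} (h : HMan K d) {v : Fin N}
    (hv : ({v} : Finset (Fin N)) ∈ K) : Good K (del K {v}) d := by
  classical
  have hd := h.two_le
  have hL := h.lks v hv
  obtain ⟨z, hz0, hzs, hzc, hzu⟩ := h.top
  obtain ⟨y, hy0, hys, hyc, hyu⟩ := hL.top ∅ hL.cx.1
  rw [card_empty, Nat.sub_zero, lk_empty] at hys hyu
  have hac : ∀ j, j ≠ d - 1 → AcyclicAt (lk K {v}) j := by
    intro j hj
    have := hL.ac ∅ hL.cx.1 j (by rw [card_empty]; omega)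
    rwa [lk_empty] at this
  have hs : z = fun σ => if σ ∈ K ∧ σ.card = d then 1 else 0 := by
    rcases hzu (fun σ => if σ ∈ K ∧ σ.card = d then 1 else 0) (by
      intro σ hσ
      beta_reduce at hσ
      split_ifs at hσ with h1
      · exact h1
      · exact absurd rfl hσ) (hman_facets h) with h1 | h1
    · exfalso
      apply hz0
      funext σ
      by_contra hne
      have := congrFun h1 σ
      simp only [Pi.zero_apply] at this
      rw [if_pos (hzs σ hne)] at this
      exact one_ne_zero this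
    · exact h1.symm
  have hpz : part v z ≠ 0 := by
    obtain ⟨τ, hτ⟩ : ∃ τ, y τ ≠ 0 := by
      by_contra hcon
      push Not at hcon
      exact hy0 (funext hcon)
    obtain ⟨h1, h2⟩ := hys τ hτ
    rw [mem_lk, disjoint_singleton_right] at h1
    intro h3
    have h4 := congrFun h3 τ
    rw [part, if_neg h1.1, hs] at h4
    simp only [Pi.zero_apply] at h4
    rw [if_pos ⟨by rw [insert_eq, union_comm]; exact h1.2, by
      rw [card_insert_of_notMem h1.1, h2]; omega⟩] at h4
    exact one_ne_zero h4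
  refine ⟨?_, ?_, ?_⟩
  · intro s c hc hb
    by_cases hsd : s = d - 1
    · obtain ⟨b, hb, hbc⟩ := hb
      subst hsd
      have e : d - 1 + 1 = d := by omega
      have hpb : ∀ ρ, bdr (part v b) ρ = 0 := by
        intro ρ
        rw [bdr_part]
        split_ifs with h
        · rfl
        · rw [← hbc]
          exact del_notMem hc (mem_insert_self _ _)
      have hpzc : ∀ ρ, bdr (part v z) ρ = 0 := by
        intro ρ
        rw [bdr_part]
        split_ifs with h
        · rfl
        · exact hzc _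
      have hzs' : Sp K (d - 1 + 1) z := by rw [e]; exact hzs
      have hzy : part v z = y := by
        rcases hyu _ (part_sp hzs') hpzc with h2 | h2
        · exact absurd h2 hpz
        · exact h2
      obtain ⟨b2, hb2, hb2c, hb2p⟩ : ∃ b2, Sp K (d - 1 + 1) b2 ∧ (∀ ρ, bdr b2 ρ = bdr b ρ) ∧
          part v b2 = 0 := by
        rcases hyu _ (part_sp hb) hpb with h2 | h2
        · exact ⟨b, hb, fun _ => rfl, h2⟩
        · refine ⟨fun σ => b σ + z σ, sp_add hb hzs', ?_, ?_⟩
          · intro ρ
            rw [bdr_add, hzc, add_zero]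
          · funext τ
            have h3 := congrFun h2 τ
            have h4 := congrFun hzy τ
            unfold part at h3 h4 ⊢
            split_ifs at h3 h4 ⊢ with h5
            · rfl
            · beta_reduce
              rw [h3, h4]
              exact z2 _
      obtain ⟨b', hb', hbb⟩ := fix h.cx hb2 (e := fun _ => 0) (w := v)
        (fun σ hσ => absurd rfl hσ) (fun ρ => by rw [hb2p, bdr_zero]; rfl)
      exact ⟨b', hb', fun ρ => by rw [hbc, hbb, hb2c]⟩
    · exact inj_at h.cx (hac s hsd) hc hb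
  · intro c hc hcy ρ
    rcases hzu c (sp_mono (del_sub K {v}) hc) hcy with h1 | h1
    · rw [h1]; rfl
    · exfalso
      apply hpz
      funext τ
      rw [← h1, part]
      split_ifs
      · rfl
      · exact del_notMem hc (mem_insert_self _ _)
  · intro s hs' c hc hcy
    exact surj_at h.cx (fun j hj => hac j (by omega)) hc hcy

/-- the deletion of a nonempty face -/
theorem good_del (σ : Finset (Fin N)) : ∀ (K : Finset (Finset (Fin N))) (d : ℕ), HMan K d →
    σ ∈ K → σ.Nonempty → Good K (del K σ) d := by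
  classical
  induction σ using Finset.induction_on with
  | empty => intro K d _ _ h; exact absurd h not_nonempty_empty
  | insert w τ hw ih =>
    intro K d h hσ _
    have hwK : ({w} : Finset (Fin N)) ∈ K :=
      h.cx.2 _ hσ _ (singleton_subset_iff.2 (mem_insert_self _ _))
    rcases τ.eq_empty_or_nonempty with rfl | hne
    · have : (insert w ∅ : Finset (Fin N)) = {w} := by simp
      rw [this]
      exact base_man h hwK
    · have hτK : τ ∈ K := h.cx.2 _ hσ _ (subset_insert _ _)
      have e1 : del K (insert w τ) = del (del K τ) {w} := by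
        ext ρ
        rw [mem_del, mem_del, mem_del, disjoint_insert_right, disjoint_singleton_right]
        tauto
      have e2 : lk (del K τ) {w} = del (lk K {w}) τ := by
        ext ρ
        rw [mem_lk, mem_del, mem_del, mem_lk, disjoint_singleton_right, disjoint_union_left,
          disjoint_singleton_left]
        tauto
      have hl : ∀ j, AcyclicAt (lk (del K τ) {w}) j := by
        intro j
        rw [e2]
        refine del_acyclic τ (lk K {w}) (d - 1) (h.lks w hwK) ?_ hne j
        rw [mem_lk, disjoint_singleton_right, union_comm, ← insert_eq]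
        exact ⟨hw, hσ⟩
      have hcx := del_cx h.cx τ
      obtain ⟨i1, i2, i3⟩ := ih K d h hτK hne
      rw [e1]
      refine ⟨?_, ?_, ?_⟩
      · intro s c hc hb
        exact inj_at hcx (hl s) hc (i1 s c (sp_mono (del_sub _ _) hc) hb)
      · intro c hc hcy
        exact i2 c (sp_mono (del_sub _ _) hc) hcy
      · intro s hs c hc hcy
        obtain ⟨c1, f1, h1, h2, h3, h4⟩ := i3 s hs c hc hcy
        obtain ⟨c2, f2, h5, h6, h7, h8⟩ := surj_at hcx (fun j _ => hl j) h1 h2
        refine ⟨c2, fun σ => f1 σ + f2 σ, h5, h6,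
          sp_add h3 (sp_mono (del_sub K τ) h7), fun ρ => ?_⟩
        rw [bdr_add, ← h4, ← h8]
        have := z2 (c1 ρ)
        linear_combination (-1 : ZMod 2) * this

/-- **Part P2.** -/
theorem stP2 : StP2 := fun _ K d h σ hσ hne => good_del σ K d h hσ hne

end Pool.Agent.H83.KR
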